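import Pool.Agent.Q97.UM.Stm14

set_option autoImplicit false

/-! Project UM8 of helper97: elementary lemmas on mean values `MB`. -/

namespace Pool.Agent.Q86.UM

open Pool.Agent.Q97.UM
open Filter Topology MeasureTheory Complex

noncomputable section

theorem dp_cont (M : ℕ) (c : ℕ → ℂ) : Continuous (dp M c) := by
  unfold dp
  apply continuous_finsetSum
  intro n hn
  have hn1 : 1 ≤ n := (Finset.mem_Icc.mp hn).1
  apply continuous_const.mul
  apply Continuous.const_cpow (by fun_prop)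
  left
  exact_mod_cast (by omega : n ≠ 0)

theorem dp_bdd (M : ℕ) (c : ℕ → ℂ) (t : ℝ) : ‖dp M c t‖ ≤ ∑ n ∈ Finset.Icc 1 M, ‖c n‖ := by
  unfold dp
  refine (norm_sum_le _ _).trans (Finset.sum_le_sum fun n hn => ?_)
  have hn1 : 1 ≤ n := (Finset.mem_Icc.mp hn).1
  rw [norm_mul]
  have h1 : ‖(n : ℂ) ^ (-(1 / 2 + t * I))‖ ≤ 1 := by
    rw [Complex.norm_natCast_cpow_of_pos hn1]
    have hre : (-(1 / 2 + t * I) : ℂ).re = -(1 / 2) := by simp
    rw [hre]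
    exact Real.rpow_le_one_of_one_le_of_nonpos (by exact_mod_cast hn1) (by norm_num)
  calc ‖c n‖ * _ ≤ ‖c n‖ * 1 := mul_le_mul_of_nonneg_left h1 (norm_nonneg _)
    _ = ‖c n‖ := mul_one _

theorem zf_cont (D : ℝ) (a a2 : ℕ → ℂ) (j : ℕ) : Continuous (zf D a a2 j) := by
  unfold zf
  exact dp_cont _ _

theorem zf_bdd (D : ℝ) (a a2 : ℕ → ℂ) (j : ℕ) : ∃ B : ℝ, 0 ≤ B ∧ ∀ t, ‖zf D a a2 j t‖ ≤ B :=
  ⟨∑ n ∈ Finset.Icc 1 (⌊XB D j⌋₊ ^ 2), ‖qb D a a2 j n‖, Finset.sum_nonneg fun _ _ => norm_nonneg _, fun t => by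
    unfold zf
    exact dp_bdd _ _ _⟩

theorem N2_nonneg (M : ℕ) (c : ℕ → ℂ) : 0 ≤ N2 M c := by
  unfold N2
  exact Finset.sum_nonneg fun n _ => by positivity

theorem MB_mono {F G : ℝ → ℝ} {C C' : ℝ} (hF : Continuous F) (hG : Continuous G) (h : ∀ t, F t ≤ G t) (hC : C ≤ C')
    (hG' : MB G C) : MB F C' := by
  unfold MB at *
  filter_upwards [hG', eventually_ge_atTop 0] with V hV hV0
  calc ∫ t in V..(2 * V), F t ≤ ∫ t in V..(2 * V), G t :=
        intervalIntegral.integral_mono_on (by linarith) (hF.intervalIntegrable _ _) (hG.intervalIntegrable _ _)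
          (fun x _ => h x)
    _ ≤ C * V := hV
    _ ≤ C' * V := mul_le_mul_of_nonneg_right hC hV0

theorem MB_const_mul {F : ℝ → ℝ} {C : ℝ} (k : ℝ) (hk : 0 ≤ k) (h : MB F C) : MB (fun t => k * F t) (k * C) := by
  unfold MB at *
  filter_upwards [h] with V hV
  rw [intervalIntegral.integral_const_mul, mul_assoc]
  exact mul_le_mul_of_nonneg_left hV hk

theorem MB_sum {ι : Type*} (s : Finset ι) (F : ι → ℝ → ℝ) (C : ι → ℝ) (hF : ∀ i ∈ s, Continuous (F i))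
    (h : ∀ i ∈ s, MB (F i) (C i)) : MB (fun t => ∑ i ∈ s, F i t) (∑ i ∈ s, C i) := by
  unfold MB at *
  have h1 : ∀ᶠ V in atTop, ∀ i ∈ s, ∫ t in V..(2 * V), F i t ≤ C i * V := by
    rw [Filter.eventually_all_finset]
    exact h
  filter_upwards [h1] with V hV
  rw [intervalIntegral.integral_finsetSum (fun i hi => (hF i hi).intervalIntegrable _ _), Finset.sum_mul]
  exact Finset.sum_le_sum hV

/-- the mean value of a Dirichlet polynomial -/
theorem MB_dp (hM : S_MVL) (M : ℕ) (c : ℕ → ℂ) : MB (fun t => ‖dp M c t‖ ^ 2) (2 * N2 M c) := by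
  unfold MB
  filter_upwards [eventually_ge_atTop (max 16 ((M : ℝ) ^ 4))] with V hV
  have h16 : 16 ≤ V := le_trans (le_max_left _ _) hV
  have h4 : (M : ℝ) ^ 4 ≤ V := le_trans (le_max_right _ _) hV
  have hM4 : (M : ℝ) ≤ V ^ (1 / 4 : ℝ) := by
    have h0 : (0 : ℝ) ≤ M := Nat.cast_nonneg M
    have h5 : ((M : ℝ) ^ 4) ^ (1 / 4 : ℝ) = M := by
      rw [← Real.rpow_natCast, ← Real.rpow_mul h0]
      norm_num
    calc (M : ℝ) = ((M : ℝ) ^ 4) ^ (1 / 4 : ℝ) := h5.symm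
      _ ≤ V ^ (1 / 4 : ℝ) := Real.rpow_le_rpow (by positivity) h4 (by norm_num)
  have := (hM V h16 M hM4 c).2
  linarith

/-- the lower bound for the mean value of a Dirichlet polynomial -/
theorem dp_low (hM : S_MVL) (M : ℕ) (c : ℕ → ℂ) :
    ∀ᶠ V : ℝ in atTop, V / 2 * N2 M c ≤ ∫ t in V..(2 * V), ‖dp M c t‖ ^ 2 := by
  filter_upwards [eventually_ge_atTop (max 16 ((M : ℝ) ^ 4))] with V hV
  have h16 : 16 ≤ V := le_trans (le_max_left _ _) hV
  have h4 : (M : ℝ) ^ 4 ≤ V := le_trans (le_max_right _ _) hV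
  have hM4 : (M : ℝ) ≤ V ^ (1 / 4 : ℝ) := by
    have h0 : (0 : ℝ) ≤ M := Nat.cast_nonneg M
    have h5 : ((M : ℝ) ^ 4) ^ (1 / 4 : ℝ) = M := by
      rw [← Real.rpow_natCast, ← Real.rpow_mul h0]
      norm_num
    calc (M : ℝ) = ((M : ℝ) ^ 4) ^ (1 / 4 : ℝ) := h5.symm
      _ ≤ V ^ (1 / 4 : ℝ) := Real.rpow_le_rpow (by positivity) h4 (by norm_num)
  exact (hM V h16 M hM4 c).1

end

end Pool.Agent.Q86.UM
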