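import Pool.Agent.Q86.UM.MBl

set_option autoImplicit false

/-! Project UM8 of helper97, job XM: relative exponential moments. -/

namespace Pool.Agent.Q86.UM

open Pool.Agent.Q97.UM
open Filter Topology MeasureTheory Complex

noncomputable section

theorem exp_trunc (x₀ : ℝ) : ∃ R : ℕ, ∀ x : ℝ, 0 ≤ x → x ≤ x₀ →
    Real.exp x ≤ 3 * ∑ r ∈ Finset.range R, x ^ (2 * r) / ((2 * r).factorial : ℝ) := by
  have hs := Real.hasSum_cosh x₀
  have hev : ∀ᶠ R : ℕ in atTop, Real.cosh x₀ - 1 / 2 < ∑ r ∈ Finset.range R, x₀ ^ (2 * r) / ((2 * r).factorial : ℝ) :=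
    hs.tendsto_sum_nat.eventually (lt_mem_nhds (by linarith))
  obtain ⟨R, hR, hR1⟩ := (hev.and (eventually_ge_atTop 1)).exists
  refine ⟨R, fun x hx hxx => ?_⟩
  have hsx := Real.hasSum_cosh x
  have htail : Real.cosh x - ∑ r ∈ Finset.range R, x ^ (2 * r) / ((2 * r).factorial : ℝ) ≤
      Real.cosh x₀ - ∑ r ∈ Finset.range R, x₀ ^ (2 * r) / ((2 * r).factorial : ℝ) := by
    have e1 := hsx.summable.sum_add_tsum_nat_add R
    have e2 := hs.summable.sum_add_tsum_nat_add R
    rw [hsx.tsum_eq] at e1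
    rw [hs.tsum_eq] at e2
    have h3 : ∑' r, x ^ (2 * (r + R)) / ((2 * (r + R)).factorial : ℝ) ≤
        ∑' r, x₀ ^ (2 * (r + R)) / ((2 * (r + R)).factorial : ℝ) := by
      apply Summable.tsum_le_tsum
      · intro r
        apply div_le_div_of_nonneg_right _ (by positivity)
        exact pow_le_pow_left₀ hx hxx _
      · exact (summable_nat_add_iff R).mpr hsx.summable
      · exact (summable_nat_add_iff R).mpr hs.summable
    linarith
  have hcosh : Real.exp x ≤ 2 * Real.cosh x := by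
    rw [Real.cosh_eq]
    have := Real.exp_pos (-x)
    linarith
  have hone : 1 ≤ ∑ r ∈ Finset.range R, x ^ (2 * r) / ((2 * r).factorial : ℝ) := by
    have := Finset.single_le_sum (f := fun r => x ^ (2 * r) / ((2 * r).factorial : ℝ))
      (fun r _ => by positivity) (Finset.mem_range.mpr (show 0 < R by omega))
    simpa using this
  linarith

theorem sum_bound (q lam x X : ℝ) (hq : 0 ≤ q) (hl : 0 ≤ lam) (hX : 0 ≤ X) (hXx : X ≤ x) (R : ℕ) :
    ∑ r ∈ Finset.range R, lam ^ (2 * r) / ((2 * r).factorial : ℝ) * (q * (X + r + 1)) ^ r ≤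
      Real.exp (lam * Real.sqrt (2 * q * x)) + Real.exp (2 * q * lam ^ 2) := by
  have hx : 0 ≤ x := hX.trans hXx
  have hterm : ∀ r ∈ Finset.range R, lam ^ (2 * r) / ((2 * r).factorial : ℝ) * (q * (X + r + 1)) ^ r ≤
      (lam * Real.sqrt (2 * q * x)) ^ (2 * r) / ((2 * r).factorial : ℝ) + (2 * q * lam ^ 2) ^ r / (r.factorial : ℝ) := by
    intro r _
    have h1 : (X + r + 1) ^ r ≤ 2 ^ r * (x ^ r + ((r : ℝ) + 1) ^ r) := by
      have h2 : (X + ((r : ℝ) + 1)) ^ r ≤ 2 ^ (r - 1) * (X ^ r + ((r : ℝ) + 1) ^ r) := add_pow_le hX (by positivity) r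
      have h3 : (2 : ℝ) ^ (r - 1) ≤ 2 ^ r := pow_le_pow_right₀ (by norm_num) (by omega)
      have h4 : X ^ r ≤ x ^ r := pow_le_pow_left₀ hX hXx _
      calc (X + r + 1) ^ r = (X + ((r : ℝ) + 1)) ^ r := by ring
        _ ≤ 2 ^ (r - 1) * (X ^ r + ((r : ℝ) + 1) ^ r) := h2
        _ ≤ 2 ^ r * (x ^ r + ((r : ℝ) + 1) ^ r) := by
            apply mul_le_mul h3 (by linarith) (by positivity) (by positivity)
    have h5 : ((r : ℝ) + 1) ^ r / ((2 * r).factorial : ℝ) ≤ 1 / (r.factorial : ℝ) := by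
      rw [div_le_div_iff₀ (by positivity) (by positivity)]
      have := Nat.factorial_mul_pow_le_factorial (m := r) (n := r)
      rw [← two_mul] at this
      have h6 : ((r.factorial * (r + 1) ^ r : ℕ) : ℝ) ≤ ((2 * r).factorial : ℝ) := by exact_mod_cast this
      push_cast at h6
      linarith
    have h7 : (lam * Real.sqrt (2 * q * x)) ^ (2 * r) = lam ^ (2 * r) * (2 * q * x) ^ r := by
      rw [mul_pow, pow_mul (Real.sqrt (2 * q * x)), Real.sq_sqrt (by positivity)]
    calc lam ^ (2 * r) / ((2 * r).factorial : ℝ) * (q * (X + r + 1)) ^ r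
        = lam ^ (2 * r) / ((2 * r).factorial : ℝ) * (q ^ r * (X + r + 1) ^ r) := by rw [mul_pow]
      _ ≤ lam ^ (2 * r) / ((2 * r).factorial : ℝ) * (q ^ r * (2 ^ r * (x ^ r + ((r : ℝ) + 1) ^ r))) := by
          apply mul_le_mul_of_nonneg_left _ (by positivity)
          exact mul_le_mul_of_nonneg_left h1 (by positivity)
      _ = lam ^ (2 * r) * (2 * q * x) ^ r / ((2 * r).factorial : ℝ) +
            (2 * q * lam ^ 2) ^ r * (((r : ℝ) + 1) ^ r / ((2 * r).factorial : ℝ)) := by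
          rw [mul_pow (2 * q), mul_pow 2 q, mul_pow (2 * q), mul_pow 2 q, ← pow_mul]
          ring
      _ ≤ _ := by
          rw [h7]
          have := mul_le_mul_of_nonneg_left h5 (show 0 ≤ (2 * q * lam ^ 2) ^ r by positivity)
          have h8 : (2 * q * lam ^ 2) ^ r * (1 / (r.factorial : ℝ)) = (2 * q * lam ^ 2) ^ r / (r.factorial : ℝ) := by ring
          linarith
  refine (Finset.sum_le_sum hterm).trans ?_
  rw [Finset.sum_add_distrib]
  have hs1 : ∑ r ∈ Finset.range R, (lam * Real.sqrt (2 * q * x)) ^ (2 * r) / ((2 * r).factorial : ℝ) ≤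
      Real.exp (lam * Real.sqrt (2 * q * x)) := by
    set y := lam * Real.sqrt (2 * q * x) with hy
    have hy0 : 0 ≤ y := by positivity
    have h1 : ∑ r ∈ Finset.range R, y ^ (2 * r) / ((2 * r).factorial : ℝ) ≤ Real.cosh y := by
      apply sum_le_hasSum _ _ (Real.hasSum_cosh y)
      intro r _
      positivity
    have h2 : Real.cosh y ≤ Real.exp y := by
      rw [Real.cosh_eq]
      have : Real.exp (-y) ≤ Real.exp y := Real.exp_le_exp.mpr (by linarith)
      linarith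
    linarith
  have hs2 : ∑ r ∈ Finset.range R, (2 * q * lam ^ 2) ^ r / (r.factorial : ℝ) ≤ Real.exp (2 * q * lam ^ 2) :=
    Real.sum_le_exp_of_nonneg (by positivity) R
  linarith

theorem one_block {z : ℝ → ℂ} (hz : Continuous z) (hzb : ∃ B : ℝ, 0 ≤ B ∧ ∀ t, ‖z t‖ ≤ B) (q x X lam : ℝ)
    (hq : 0 ≤ q) (hl : 0 ≤ lam) (hX : 0 ≤ X) (hXx : X ≤ x) (M : ℕ) (c : ℕ → ℂ)
    (hP : ∀ r : ℕ, MB (fun t => ‖dp M c t‖ ^ 2 * ‖z t‖ ^ (2 * r)) ((q * (X + r + 1)) ^ r * (2 * N2 M c))) :
    MB (fun t => ‖dp M c t‖ ^ 2 * Real.exp (lam * ‖z t‖))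
      (6 * (Real.exp (lam * Real.sqrt (2 * q * x)) + Real.exp (2 * q * lam ^ 2)) * N2 M c) := by
  obtain ⟨B, hB0, hB⟩ := hzb
  obtain ⟨R, hR⟩ := exp_trunc (lam * B)
  have hdp := dp_cont M c
  have h1 : MB (fun t => ∑ r ∈ Finset.range R, 3 * (lam ^ (2 * r) / ((2 * r).factorial : ℝ)) *
      (‖dp M c t‖ ^ 2 * ‖z t‖ ^ (2 * r)))
      (∑ r ∈ Finset.range R, 3 * (lam ^ (2 * r) / ((2 * r).factorial : ℝ)) * ((q * (X + r + 1)) ^ r * (2 * N2 M c))) := by
    apply MB_sum
    · intro r _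
      fun_prop
    · intro r _
      exact MB_const_mul _ (by positivity) (hP r)
  refine MB_mono (by fun_prop) (by fun_prop) ?_ ?_ h1
  · intro t
    have h2 := hR (lam * ‖z t‖) (by positivity) (mul_le_mul_of_nonneg_left (hB t) hl)
    calc ‖dp M c t‖ ^ 2 * Real.exp (lam * ‖z t‖)
        ≤ ‖dp M c t‖ ^ 2 * (3 * ∑ r ∈ Finset.range R, (lam * ‖z t‖) ^ (2 * r) / ((2 * r).factorial : ℝ)) :=
          mul_le_mul_of_nonneg_left h2 (by positivity)
      _ = _ := by
          rw [Finset.mul_sum, Finset.mul_sum]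
          refine Finset.sum_congr rfl fun r _ => ?_
          rw [mul_pow]
          ring
  · have h3 := sum_bound q lam x X hq hl hX hXx R
    have h4 : ∑ r ∈ Finset.range R, 3 * (lam ^ (2 * r) / ((2 * r).factorial : ℝ)) * ((q * (X + r + 1)) ^ r * (2 * N2 M c)) =
        6 * (∑ r ∈ Finset.range R, lam ^ (2 * r) / ((2 * r).factorial : ℝ) * (q * (X + r + 1)) ^ r) * N2 M c := by
      rw [Finset.mul_sum, Finset.sum_mul]
      refine Finset.sum_congr rfl fun r _ => ?_
      ring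
    rw [h4]
    apply mul_le_mul_of_nonneg_right _ (N2_nonneg M c)
    linarith

theorem geo_sum (j : ℕ) : ∑ l ∈ Finset.range (j + 1), Real.exp (((l : ℝ) - j) / 4) ≤ 5 := by
  have h1 : ∑ l ∈ Finset.range (j + 1), Real.exp (((l : ℝ) - j) / 4) =
      ∑ l ∈ Finset.range (j + 1), Real.exp (-1 / 4) ^ l := by
    rw [← Finset.sum_range_reflect]
    refine Finset.sum_congr rfl fun l hl => ?_
    rw [← Real.exp_nat_mul]
    have hl' : l ≤ j := by
      have := Finset.mem_range.mp hl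
      omega
    have h2 : j + 1 - 1 - l = j - l := by omega
    rw [h2, Nat.cast_sub hl']
    congr 1
    ring
  rw [h1]
  have hr1 : Real.exp (-1 / 4) ≤ 4 / 5 := by
    have h2 : (5 / 4 : ℝ) ≤ Real.exp (1 / 4) := by
      have := Real.add_one_le_exp (1 / 4 : ℝ)
      linarith
    have h3 : Real.exp (-1 / 4) = (Real.exp (1 / 4))⁻¹ := by
      rw [← Real.exp_neg]
      congr 1
      ring
    rw [h3]
    rw [inv_le_comm₀ (Real.exp_pos _) (by norm_num)]
    norm_num at h2 ⊢
    linarith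
  have hr0 : 0 < Real.exp (-1 / 4) := Real.exp_pos _
  calc ∑ l ∈ Finset.range (j + 1), Real.exp (-1 / 4) ^ l ≤ ∑ l ∈ Finset.range (j + 1), (4 / 5 : ℝ) ^ l :=
        Finset.sum_le_sum fun l _ => pow_le_pow_left₀ hr0.le hr1 l
    _ ≤ ∑' l : ℕ, (4 / 5 : ℝ) ^ l :=
        Summable.sum_le_tsum _ (fun l _ => by positivity) (summable_geometric_of_lt_one (by norm_num) (by norm_num))
    _ = 5 := by
        rw [tsum_geometric_of_lt_one (by norm_num) (by norm_num)]
        norm_num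

theorem t_XM : J_XM := by
  intro hPMT hMVL
  obtain ⟨C₁, hC₁, hP⟩ := hPMT
  intro K₀ c₀ A m hK₀ hc₀ hA
  set q : ℝ := C₁ * A ^ 2 with hqdef
  have hq : 0 ≤ q := by positivity
  set P : ℝ := 5 * c₀ * m * Real.sqrt (2 * q * K₀) + 50 * q * c₀ ^ 2 * m ^ 2 with hPdef
  have hP0 : 0 ≤ P := by positivity
  refine ⟨P + 3, by linarith, ?_⟩
  intro D hD a a2 ha ha2 M c hM hlog hsupp j
  have hN := N2_nonneg M c
  have he1 : 1 ≤ Real.exp ((j : ℝ) / 2) := Real.one_le_exp (by positivity)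
  have hdp := dp_cont M c
  have hz : ∀ i l, Continuous (zf D (a i) (a2 i) l) := fun i l => zf_cont _ _ _ _
  have h12 : (12 : ℝ) ≤ Real.exp 3 := by
    have h27 : (2.7182818283 : ℝ) < Real.exp 1 := Real.exp_one_gt_d9
    have : Real.exp 3 = Real.exp 1 ^ 3 := by
      rw [← Real.exp_nat_mul]
      norm_num
    rw [this]
    calc (12 : ℝ) ≤ 2.7182818283 ^ 3 := by norm_num
      _ ≤ Real.exp 1 ^ 3 := pow_le_pow_left₀ (by norm_num) h27.le 3
  have hfin : 12 * Real.exp (P * Real.exp ((j : ℝ) / 2)) ≤ Real.exp ((P + 3) * Real.exp ((j : ℝ) / 2)) := by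
    have h3 : Real.exp 3 ≤ Real.exp (3 * Real.exp ((j : ℝ) / 2)) := Real.exp_le_exp.mpr (by linarith)
    have h4 : Real.exp ((P + 3) * Real.exp ((j : ℝ) / 2)) =
        Real.exp (3 * Real.exp ((j : ℝ) / 2)) * Real.exp (P * Real.exp ((j : ℝ) / 2)) := by
      rw [← Real.exp_add]
      congr 1
      ring
    rw [h4]
    exact mul_le_mul_of_nonneg_right (h12.trans h3) (Real.exp_pos _).le
  rcases Nat.eq_zero_or_pos m with hm0 | hm0
  · subst hm0
    refine MB_mono (by fun_prop) (by fun_prop) (fun t => ?_) ?_ (MB_dp hMVL M c)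
    · simp
    · apply mul_le_mul_of_nonneg_right _ hN
      have : 1 ≤ Real.exp (P * Real.exp ((j : ℝ) / 2)) := Real.one_le_exp (by positivity)
      linarith
  have hmR : (1 : ℝ) ≤ m := by exact_mod_cast hm0
  set S : ℝ := ∑ l ∈ Finset.range (j + 1), Real.exp (((l : ℝ) - j) / 4) with hSdef
  have hS5 : S ≤ 5 := geo_sum j
  have hS0 : 0 < S := Finset.sum_pos (fun l _ => Real.exp_pos _) ⟨0, Finset.mem_range.mpr (by omega)⟩
  let w : Fin m × ℕ → ℝ := fun x => Real.exp (((x.2 : ℝ) - j) / 4) / (m * S)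
  have hw0 : ∀ x, 0 < w x := fun x => by
    simp only [w]
    positivity
  set I : Finset (Fin m × ℕ) := Finset.univ ×ˢ Finset.range (j + 1) with hI
  have hw1 : ∑ x ∈ I, w x = 1 := by
    simp only [w]
    rw [← Finset.sum_div, hI, Finset.sum_product]
    simp only
    rw [Finset.sum_const, Finset.card_univ, Fintype.card_fin, ← hSdef, nsmul_eq_mul]
    field_simp
  let lam : Fin m × ℕ → ℝ := fun x => c₀ / w x
  have hlam0 : ∀ x, 0 ≤ lam x := fun x => div_nonneg hc₀ (hw0 x).le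
  have hlamv : ∀ x, lam x = c₀ * m * S * Real.exp (((j : ℝ) - x.2) / 4) := by
    intro x
    simp only [lam, w]
    have : Real.exp (((x.2 : ℝ) - j) / 4) = (Real.exp (((j : ℝ) - x.2) / 4))⁻¹ := by
      rw [← Real.exp_neg]
      congr 1
      ring
    rw [this]
    have := Real.exp_pos (((j : ℝ) - x.2) / 4)
    field_simp
  have hbl : ∀ x ∈ I, MB (fun t => ‖dp M c t‖ ^ 2 * Real.exp (lam x * ‖zf D (a x.1) (a2 x.1) x.2 t‖))
      (12 * Real.exp (P * Real.exp ((j : ℝ) / 2)) * N2 M c) := by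
    intro x hx
    have hxl : x.2 ≤ j := by
      have := (Finset.mem_product.mp hx).2
      have := Finset.mem_range.mp this
      omega
    have hxl' : (x.2 : ℝ) ≤ j := by exact_mod_cast hxl
    have hX0 : 0 ≤ Real.exp (x.2 : ℝ) * Real.log M / D := by
      have : 0 ≤ Real.log M := Real.log_nonneg (by exact_mod_cast hM)
      positivity
    have hXx : Real.exp (x.2 : ℝ) * Real.log M / D ≤ K₀ * Real.exp (x.2 : ℝ) := by
      rw [div_le_iff₀ (by linarith)]
      have := mul_le_mul_of_nonneg_left hlog (Real.exp_pos (x.2 : ℝ)).le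
      linarith
    have h1 := one_block (hz x.1 x.2) (zf_bdd D (a x.1) (a2 x.1) x.2) q (K₀ * Real.exp (x.2 : ℝ))
      (Real.exp (x.2 : ℝ) * Real.log M / D) (lam x) hq (hlam0 x) hX0 hXx M c
      (fun r => hP A D hA hD (a x.1) (a2 x.1) (ha x.1) (ha2 x.1) M c hM hsupp x.2 r)
    refine MB_mono (by fun_prop) (by fun_prop) (fun t => le_refl _) ?_ h1
    apply mul_le_mul_of_nonneg_right _ hN
    have e1 : lam x * Real.sqrt (2 * q * (K₀ * Real.exp (x.2 : ℝ))) ≤ P * Real.exp ((j : ℝ) / 2) := by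
      have h2 : Real.sqrt (2 * q * (K₀ * Real.exp (x.2 : ℝ))) = Real.sqrt (2 * q * K₀) * Real.exp ((x.2 : ℝ) / 2) := by
        rw [← mul_assoc, Real.sqrt_mul (by positivity)]
        congr 1
        rw [Real.sqrt_eq_iff_mul_self_eq (Real.exp_pos _).le (Real.exp_pos _).le, ← Real.exp_add]
        congr 1
        ring
      rw [h2, hlamv]
      have h3 : Real.exp (((j : ℝ) - x.2) / 4) * Real.exp ((x.2 : ℝ) / 2) ≤ Real.exp ((j : ℝ) / 2) := by
        rw [← Real.exp_add]
        apply Real.exp_le_exp.mpr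
        linarith
      calc c₀ * m * S * Real.exp (((j : ℝ) - x.2) / 4) * (Real.sqrt (2 * q * K₀) * Real.exp ((x.2 : ℝ) / 2))
          = c₀ * m * Real.sqrt (2 * q * K₀) * (S * (Real.exp (((j : ℝ) - x.2) / 4) * Real.exp ((x.2 : ℝ) / 2))) := by ring
        _ ≤ c₀ * m * Real.sqrt (2 * q * K₀) * (5 * Real.exp ((j : ℝ) / 2)) := by
            apply mul_le_mul_of_nonneg_left _ (by positivity)
            exact mul_le_mul hS5 h3 (by positivity) (by norm_num)
        _ = 5 * c₀ * m * Real.sqrt (2 * q * K₀) * Real.exp ((j : ℝ) / 2) := by ring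
        _ ≤ P * Real.exp ((j : ℝ) / 2) := by
            apply mul_le_mul_of_nonneg_right _ (Real.exp_pos _).le
            rw [hPdef]
            have : 0 ≤ 50 * q * c₀ ^ 2 * (m : ℝ) ^ 2 := by positivity
            linarith
    have e2 : 2 * q * lam x ^ 2 ≤ P * Real.exp ((j : ℝ) / 2) := by
      rw [hlamv]
      have h3 : Real.exp (((j : ℝ) - x.2) / 4) ^ 2 ≤ Real.exp ((j : ℝ) / 2) := by
        rw [← Real.exp_nat_mul]
        apply Real.exp_le_exp.mpr
        have : (0 : ℝ) ≤ x.2 := Nat.cast_nonneg _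
        push_cast
        linarith
      have hS25 : S ^ 2 ≤ 25 := by nlinarith
      calc 2 * q * (c₀ * m * S * Real.exp (((j : ℝ) - x.2) / 4)) ^ 2
          = 2 * q * c₀ ^ 2 * m ^ 2 * (S ^ 2 * Real.exp (((j : ℝ) - x.2) / 4) ^ 2) := by ring
        _ ≤ 2 * q * c₀ ^ 2 * m ^ 2 * (25 * Real.exp ((j : ℝ) / 2)) := by
            apply mul_le_mul_of_nonneg_left _ (by positivity)
            exact mul_le_mul hS25 h3 (by positivity) (by norm_num)
        _ = 50 * q * c₀ ^ 2 * m ^ 2 * Real.exp ((j : ℝ) / 2) := by ring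
        _ ≤ P * Real.exp ((j : ℝ) / 2) := by
            apply mul_le_mul_of_nonneg_right _ (Real.exp_pos _).le
            rw [hPdef]
            have : 0 ≤ 5 * c₀ * m * Real.sqrt (2 * q * K₀) := by positivity
            linarith
    have := Real.exp_le_exp.mpr e1
    have := Real.exp_le_exp.mpr e2
    linarith
  have hsum : MB (fun t => ∑ x ∈ I, w x * (‖dp M c t‖ ^ 2 * Real.exp (lam x * ‖zf D (a x.1) (a2 x.1) x.2 t‖)))
      (∑ x ∈ I, w x * (12 * Real.exp (P * Real.exp ((j : ℝ) / 2)) * N2 M c)) := by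
    apply MB_sum
    · intro x _
      have := hz x.1 x.2
      fun_prop
    · intro x hx
      exact MB_const_mul _ (hw0 x).le (hbl x hx)
  refine MB_mono (by fun_prop) ?_ (fun t => ?_) ?_ hsum
  · apply continuous_finsetSum
    intro x _
    have := hz x.1 x.2
    fun_prop
  · have hconv := convexOn_exp.map_sum_le (t := I) (w := w) (p := fun x => lam x * ‖zf D (a x.1) (a2 x.1) x.2 t‖)
      (fun x _ => (hw0 x).le) hw1 (fun x _ => Set.mem_univ _)
    simp only [smul_eq_mul] at hconv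
    have hc2 : ∑ x ∈ I, w x * (lam x * ‖zf D (a x.1) (a2 x.1) x.2 t‖) =
        c₀ * ∑ i, ∑ l ∈ Finset.range (j + 1), ‖zf D (a i) (a2 i) l t‖ := by
      rw [hI, Finset.sum_product, Finset.mul_sum]
      refine Finset.sum_congr rfl fun i _ => ?_
      rw [Finset.mul_sum]
      refine Finset.sum_congr rfl fun l _ => ?_
      simp only [lam]
      have := hw0 (i, l)
      field_simp
    rw [hc2] at hconv
    calc ‖dp M c t‖ ^ 2 * Real.exp (c₀ * ∑ i, ∑ l ∈ Finset.range (j + 1), ‖zf D (a i) (a2 i) l t‖)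
        ≤ ‖dp M c t‖ ^ 2 * ∑ x ∈ I, w x * Real.exp (lam x * ‖zf D (a x.1) (a2 x.1) x.2 t‖) :=
          mul_le_mul_of_nonneg_left hconv (by positivity)
      _ = _ := by
          rw [Finset.mul_sum]
          refine Finset.sum_congr rfl fun x _ => ?_
          ring
  · rw [← Finset.sum_mul, hw1, one_mul]
    exact mul_le_mul_of_nonneg_right hfin hN

end

end Pool.Agent.Q86.UM
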